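import Mathlib
import Pool.Agent.AlgRandom.Defs
import Pool.Agent.AlgRandom.Tests
import Pool.Agent.AlgRandom.Coding
import Pool.Agent.AlgRandom.Universal

/-!
# LR-reducibility, relative randomness and K-triviality

We prove: if `A ⊕ B ≤_LR B` and `B` is `A`-random, then `A` is K-trivial.

Outline.  By Kucera's coding method relative to `B` there is a `B`-random `Z` such that `B ⊕ Z`
computes `A` (`exists_coding`).  By `A ⊕ B ≤_LR B` the sequence `Z` is `(A ⊕ B)`-random.  As `B`
is `A`-random, van Lambalgen's argument (relative to `A`) shows that the pair `(B, Z)` passes the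
tests relative to `A` given by the hungry sets of Hirschfeldt, Nies and Stephan
(`exists_not_fed`), and hence `A` is K-trivial (`kTrivial_of_not_fed`).

The hypothesis `IsUniversal U` is satisfiable: see `universal_machine_exists`.
-/

namespace Pool.Agent.Results.MP_de6bcb_lc.LRBaseKTrivial

open Pool.Agent.AlgRandom
open Nat.Partrec (Code)

/-- Stage-by-stage approximation of a partial recursive function on strings. -/
theorem exists_code {U : List Bool →. ℕ} (hU : Partrec U) :
    ∃ c : Code, ∀ σ x, x ∈ U σ ↔ ∃ n, us c n σ = some x := by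
  obtain ⟨c, hc⟩ := Code.exists_code.1 hU
  refine ⟨c, fun σ x => ?_⟩
  have h1 : x ∈ U σ ↔ x ∈ Code.eval c (Encodable.encode σ) := by
    rw [hc]
    simp
  rw [h1, Code.evaln_complete]
  rfl

/-- Universal prefix-free machines exist, so that `result` is not vacuous. -/
theorem universal_machine_exists : ∃ U : List Bool →. ℕ, IsUniversal U := exists_isUniversal

/-- Let `U` be any universal prefix-free machine. If `A ⊕ B ≤_LR B` and `B` is Martin-Löf random
relative to `A`, then `A` is K-trivial. -/
theorem result (U : List Bool →. ℕ) (hU : IsUniversal U) (A B : ℕ → Bool)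
    (hLR : LRReducible (join A B) B) (hB : MLRandom A B) : KTrivial U A := by
  obtain ⟨c, hc⟩ := exists_code hU.partrec
  obtain ⟨Z, hZ, hsound, hcomp⟩ := exists_coding A B
  have hZ' : MLRandom (join A B) Z := hLR Z hZ
  obtain ⟨d, hd⟩ := exists_not_fed hU.toIsPrefixFreeMachine hc primrec_decodeA hB hZ' hsound
  exact kTrivial_of_not_fed hU hc primrec_decodeA hsound hcomp hd

end Pool.Agent.Results.MP_de6bcb_lc.LRBaseKTrivial
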